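import Mathlib
import Pool.Agent.Lead.EvDefs

/-!
# Counting lemmas for evasiveness over a `p`-group
-/

set_option autoImplicit false

namespace Pool.Agent.Helper3.QGr

open Finset Pool.Agent.Lead.Ev

/-- `0/1` value in a ring. -/
def val {R : Type*} [CommRing R] (b : Bool) : R := if b then 1 else 0

/-- indicator of a finset as a Boolean vector -/
def ind {V : Type*} [DecidableEq V] (F : Finset V) : V → Bool := fun v => decide (v ∈ F)

/-- alternating sum over the interval `[S, S ∪ O]` -/
def alt {V : Type*} [DecidableEq V] (R : Type*) [CommRing R] (f : Finset V → Bool)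
    (S O : Finset V) : R :=
  ∑ T ∈ O.powerset, (-1) ^ T.card * val (f (S ∪ T))

lemma sum_powerset_neg_one {V : Type*} [DecidableEq V] (R : Type*) [CommRing R] (O : Finset V)
    (h : O.Nonempty) : ∑ T ∈ O.powerset, (-1 : R) ^ T.card = 0 := by
  have h1 := Finset.sum_powerset_neg_one_pow_card_of_nonempty h
  have h2 := congrArg (Int.cast : ℤ → R) h1
  push_cast at h2
  exact h2

lemma alt_tree {V : Type*} [DecidableEq V] (R : Type*) [CommRing R] (t : DTree V) :
    ∀ S O : Finset V, Disjoint S O → t.depth < O.card →
      alt R (fun F => t.eval (ind F)) S O = 0 := by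
  induction t with
  | leaf b =>
    intro S O _ hO
    unfold alt
    simp only [DTree.eval]
    rw [← Finset.sum_mul, sum_powerset_neg_one R O (Finset.card_pos.mp (by omega)), zero_mul]
  | node i t0 t1 ih0 ih1 =>
    intro S O hd hO
    simp only [DTree.depth] at hO
    by_cases hi : i ∈ O
    · obtain ⟨O1, hiO1, rfl⟩ : ∃ O1, i ∉ O1 ∧ O = insert i O1 :=
        ⟨O.erase i, by simp, (Finset.insert_erase hi).symm⟩
      have hiS : i ∉ S := fun h => (Finset.disjoint_left.mp hd h) (by simp)
      rw [Finset.card_insert_of_notMem hiO1] at hO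
      have hd1 : Disjoint S O1 := Finset.disjoint_of_subset_right (Finset.subset_insert _ _) hd
      have e0 := ih0 S O1 hd1 (by omega)
      have e1 := ih1 (insert i S) O1 (by
        rw [Finset.disjoint_insert_left]; exact ⟨hiO1, hd1⟩) (by omega)
      unfold alt at e0 e1 ⊢
      rw [Finset.sum_powerset_insert hiO1]
      have a0 : ∑ T ∈ O1.powerset, (-1 : R) ^ T.card *
          val ((DTree.node i t0 t1).eval (ind (S ∪ T))) =
          ∑ T ∈ O1.powerset, (-1 : R) ^ T.card * val (t0.eval (ind (S ∪ T))) := by
        apply Finset.sum_congr rfl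
        intro T hT
        have hiT : i ∉ T := fun h => hiO1 (Finset.mem_powerset.mp hT h)
        have : ind (S ∪ T) i = false := by simp [ind, hiS, hiT]
        simp [DTree.eval, this]
      have a1 : ∑ T ∈ O1.powerset, (-1 : R) ^ (insert i T).card *
          val ((DTree.node i t0 t1).eval (ind (S ∪ insert i T))) =
          - ∑ T ∈ O1.powerset, (-1 : R) ^ T.card * val (t1.eval (ind (insert i S ∪ T))) := by
        rw [← Finset.sum_neg_distrib]
        apply Finset.sum_congr rfl
        intro T hT
        have hiT : i ∉ T := fun h => hiO1 (Finset.mem_powerset.mp hT h)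
        have h2 : ind (S ∪ insert i T) i = true := by simp [ind]
        have h3 : S ∪ insert i T = insert i S ∪ T := by
          ext x; simp only [Finset.mem_union, Finset.mem_insert]; tauto
        rw [Finset.card_insert_of_notMem hiT, h3]
        rw [h3] at h2
        simp only [DTree.eval, h2, if_true]
        ring
      rw [a0, a1, e0, e1]
      simp
    · by_cases hS : i ∈ S
      · have e1 := ih1 S O hd (by omega)
        unfold alt at e1 ⊢
        rw [← e1]
        apply Finset.sum_congr rfl
        intro T _
        have : ind (S ∪ T) i = true := by simp [ind, hS]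
        simp [DTree.eval, this]
      · have e0 := ih0 S O hd (by omega)
        unfold alt at e0 ⊢
        rw [← e0]
        apply Finset.sum_congr rfl
        intro T hT
        have hiT : i ∉ T := fun h => hi (Finset.mem_powerset.mp hT h)
        have : ind (S ∪ T) i = false := by simp [ind, hS, hiT]
        simp [DTree.eval, this]

open MulAction in
/-- weighted fixed point congruence for `p`-groups -/
lemma sum_eq_sum_fixed {G α : Type*} [Group G] [MulAction G α] [Fintype α] (p : ℕ) [Fact p.Prime]
    (hG : IsPGroup p G) (w : α → ZMod p) (hw : ∀ (g : G) x, w (g • x) = w x)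
    [DecidablePred (fun x => x ∈ fixedPoints G α)] :
    ∑ x, w x = ∑ x ∈ univ.filter (fun x => x ∈ fixedPoints G α), w x := by
  classical
  have key : ∀ c : ZMod p, ((univ.filter (fun x => w x = c)).card : ZMod p) =
      (((univ.filter (fun x => x ∈ fixedPoints G α)).filter (fun x => w x = c)).card : ZMod p) := by
    intro c
    let A := {x : α // w x = c}
    let _ : MulAction G A :=
      { smul := fun g x => ⟨g • x.1, by rw [hw]; exact x.2⟩
        one_smul := fun x => Subtype.ext (one_smul G x.1)
        mul_smul := fun g h x => Subtype.ext (mul_smul g h x.1) }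
    have h1 := hG.card_modEq_card_fixedPoints A
    have h2 : Nat.card A = (univ.filter (fun x => w x = c)).card := by
      rw [Nat.card_eq_fintype_card, Fintype.card_subtype]
    have h3 : Nat.card (fixedPoints G A) =
        ((univ.filter (fun x => x ∈ fixedPoints G α)).filter (fun x => w x = c)).card := by
      have e : fixedPoints G A ≃
          {x : α // x ∈ (univ.filter (fun x => x ∈ fixedPoints G α)).filter (fun x => w x = c)} :=
        { toFun := fun x => ⟨x.1.1, by
            simp only [Finset.mem_filter, Finset.mem_univ, true_and]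
            exact ⟨fun g => congrArg Subtype.val (x.2 g), x.1.2⟩⟩
          invFun := fun x => ⟨⟨x.1, (Finset.mem_filter.mp x.2).2⟩, fun g =>
            Subtype.ext ((Finset.mem_filter.mp (Finset.mem_filter.mp x.2).1).2 g)⟩
          left_inv := fun x => rfl
          right_inv := fun x => rfl }
      rw [Nat.card_congr e, Nat.card_eq_fintype_card, Fintype.card_coe]
    rw [h2, h3] at h1
    exact (ZMod.natCast_eq_natCast_iff _ _ _).mpr h1
  have e1 : ∑ x, w x = ∑ c : ZMod p, ((univ.filter (fun x => w x = c)).card : ZMod p) * c := by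
    rw [← Finset.sum_fiberwise (s := univ) (g := w)]
    apply Finset.sum_congr rfl
    intro c _
    rw [Finset.sum_congr rfl (g := fun _ => c) (by intro x hx; exact (Finset.mem_filter.mp hx).2)]
    simp
  have e2 : ∑ x ∈ univ.filter (fun x => x ∈ fixedPoints G α), w x =
      ∑ c : ZMod p, (((univ.filter (fun x => x ∈ fixedPoints G α)).filter
        (fun x => w x = c)).card : ZMod p) * c := by
    rw [← Finset.sum_fiberwise (s := univ.filter (fun x => x ∈ fixedPoints G α)) (g := w)]
    apply Finset.sum_congr rfl
    intro c _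
    rw [Finset.sum_congr rfl (g := fun _ => c) (by intro x hx; exact (Finset.mem_filter.mp hx).2)]
    simp
  rw [e1, e2]
  exact Finset.sum_congr rfl (fun c _ => by rw [key c])


open MulAction in
/-- fibre lemma: alternating sums over unions of `p`-group orbits reduce to the quotient -/
lemma alt_fib {N α β : Type*} [Group N] [MulAction N α] [Fintype α] [DecidableEq α]
    [DecidableEq β] (p : ℕ) [Fact p.Prime] (hN : IsPGroup p N)
    (fib : β → Finset α) (O' : Finset β) (a : ℕ)
    (ha : (-1 : ZMod p) ^ a = -1) (ha0 : 0 < a)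
    (hcard : ∀ b ∈ O', (fib b).card = a)
    (hstab : ∀ b ∈ O', ∀ x ∈ fib b, ∀ n : N, n • x ∈ fib b)
    (htr : ∀ b ∈ O', ∀ x ∈ fib b, ∀ y ∈ fib b, ∃ n : N, n • x = y)
    (hdisj : ∀ b ∈ O', ∀ b' ∈ O', b ≠ b' → Disjoint (fib b) (fib b'))
    (f : Finset α → Bool) (hf : ∀ (n : N) (T : Finset α), f (T.image (fun x => n • x)) = f T)
    (S : Finset α) (hS : ∀ n : N, S.image (fun x => n • x) = S) :
    alt (ZMod p) f S (O'.biUnion fib) =
      alt (ZMod p) (fun T' => f (S ∪ T'.biUnion fib)) ∅ O' := by
  classical
  set O := O'.biUnion fib with hO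
  have hOst : ∀ (n : N) x, x ∈ O → n • x ∈ O := by
    intro n x hx
    rw [hO, Finset.mem_biUnion] at hx ⊢
    obtain ⟨b, hb, hxb⟩ := hx
    exact ⟨b, hb, hstab b hb x hxb n⟩
  -- action on finsets
  let act : MulAction N (Finset α) :=
    { smul := fun n T => T.image (fun x => n • x)
      one_smul := fun T => by
        show T.image (fun x => (1 : N) • x) = T
        simp
      mul_smul := fun n m T => by
        show T.image (fun x => (n * m) • x) = (T.image (fun x => m • x)).image (fun x => n • x)
        rw [Finset.image_image]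
        apply Finset.image_congr
        intro x _
        simp [mul_smul] }
  have hact : ∀ (n : N) (T : Finset α), n • T = T.image (fun x => n • x) := fun _ _ => rfl
  let w : Finset α → ZMod p := fun T => if T ⊆ O then (-1) ^ T.card * val (f (S ∪ T)) else 0
  have hw : ∀ (n : N) (T : Finset α), w (n • T) = w T := by
    intro n T
    have h1 : n • T ⊆ O ↔ T ⊆ O := by
      constructor
      · intro h x hx
        have h2 : n • x ∈ n • T := by rw [hact]; exact Finset.mem_image_of_mem _ hx
        have h3 := hOst n⁻¹ _ (h h2)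
        rwa [inv_smul_smul] at h3
      · intro h x hx
        rw [hact, Finset.mem_image] at hx
        obtain ⟨y, hy, rfl⟩ := hx
        exact hOst n y (h hy)
    have h2 : (n • T).card = T.card := by
      rw [hact]; exact Finset.card_image_of_injective _ (MulAction.injective n)
    have h3 : f (S ∪ n • T) = f (S ∪ T) := by
      rw [← hf n (S ∪ T), Finset.image_union, hS n, hact]
    simp only [w, h1, h2, h3]
  have key := sum_eq_sum_fixed p hN w hw
  have e1 : alt (ZMod p) f S O = ∑ T, w T := by
    unfold alt
    simp only [w]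
    rw [← Finset.sum_filter]
    apply Finset.sum_congr _ (fun _ _ => rfl)
    ext T; simp
  rw [e1, key]
  -- fixed subsets of O
  have hfix : ∀ T : Finset α, T ∈ fixedPoints N (Finset α) → ∀ b ∈ O', ∀ x ∈ fib b, x ∈ T →
      fib b ⊆ T := by
    intro T hT b hb x hx hxT y hy
    obtain ⟨n, hn⟩ := htr b hb x hx y hy
    have : n • T = T := hT n
    rw [← this, hact, ← hn]
    exact Finset.mem_image_of_mem _ hxT
  have hcardU : ∀ T' ∈ O'.powerset, (T'.biUnion fib).card = a * T'.card := by
    intro T' hT'
    rw [Finset.mem_powerset] at hT'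
    rw [Finset.card_biUnion (fun b hb b' hb' hne => hdisj b (hT' hb) b' (hT' hb') hne),
      Finset.sum_congr rfl (fun b hb => hcard b (hT' hb))]
    simp [mul_comm]
  have hmemU : ∀ T' ⊆ O', ∀ b ∈ O', (fib b ⊆ T'.biUnion fib ↔ b ∈ T') := by
    intro T' hT' b hb
    constructor
    · intro h
      obtain ⟨x, hx⟩ := Finset.card_pos.mp (by rw [hcard b hb]; exact ha0)
      obtain ⟨b', hb', hxb'⟩ := Finset.mem_biUnion.mp (h hx)
      by_contra hne
      have hbb : b ≠ b' := fun e => hne (e ▸ hb')
      exact Finset.disjoint_left.mp (hdisj b hb b' (hT' hb') hbb) hx hxb'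
    · intro h x hx
      exact Finset.mem_biUnion.mpr ⟨b, h, hx⟩
  unfold alt
  symm
  have e2 : ∑ x ∈ univ.filter (fun x => x ∈ fixedPoints N (Finset α)), w x =
      ∑ x ∈ univ.filter (fun x => x ∈ fixedPoints N (Finset α) ∧ x ⊆ O),
        (-1) ^ x.card * val (f (S ∪ x)) := by
    simp only [w]
    rw [← Finset.sum_filter, Finset.filter_filter]
  rw [e2]
  apply Finset.sum_bij' (fun (T' : Finset β) _ => T'.biUnion fib)
    (fun (T : Finset α) _ => O'.filter (fun b => fib b ⊆ T))
  · intro T' hT'
    rw [Finset.mem_powerset] at hT'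
    simp only [Finset.mem_filter, Finset.mem_univ, true_and]
    refine ⟨?_, Finset.biUnion_subset_biUnion_of_subset_left _ hT'⟩
    intro n
    rw [hact]
    have hsub : (T'.biUnion fib).image (fun x => n • x) ⊆ T'.biUnion fib := by
      intro x hx
      obtain ⟨y, hy, rfl⟩ := Finset.mem_image.mp hx
      obtain ⟨b, hb, hyb⟩ := Finset.mem_biUnion.mp hy
      exact Finset.mem_biUnion.mpr ⟨b, hb, hstab b (hT' hb) y hyb n⟩
    exact Finset.eq_of_subset_of_card_le hsub
      (by rw [Finset.card_image_of_injective _ (MulAction.injective n)])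
  · intro T hT
    rw [Finset.mem_powerset]
    exact Finset.filter_subset _ _
  · intro T' hT'
    rw [Finset.mem_powerset] at hT'
    ext b
    simp only [Finset.mem_filter]
    constructor
    · rintro ⟨hb, h⟩
      exact (hmemU T' hT' b hb).mp h
    · intro h
      exact ⟨hT' h, (hmemU T' hT' b (hT' h)).mpr h⟩
  · intro T hT
    simp only [Finset.mem_filter, Finset.mem_univ, true_and] at hT
    obtain ⟨hTf, hTO⟩ := hT
    ext x
    simp only [Finset.mem_biUnion, Finset.mem_filter]
    constructor
    · rintro ⟨b, ⟨_, h⟩, hx⟩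
      exact h hx
    · intro hx
      obtain ⟨b, hb, hxb⟩ := Finset.mem_biUnion.mp (hTO hx)
      exact ⟨b, ⟨hb, hfix T hTf b hb x hxb hx⟩, hxb⟩
  · intro T' hT'
    rw [hcardU T' hT', pow_mul, ha]
    simp

end Pool.Agent.Helper3.QGr
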