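import Mathlib
import Pool.Agent.Helper3.QGr.Basic

/-!
# Subspaces: the two reductions
-/

set_option autoImplicit false
set_option linter.unusedSectionVars false

namespace Pool.Agent.Helper3.QGr

open Finset Module
open scoped Classical

universe u

/-- `k`-dimensional subspaces of `V`. -/
abbrev Gr (F : Type) (V : Type u) [Field F] [AddCommGroup V] [Module F V] (k : ℕ) :=
  {X : Submodule F V // finrank F X = k}

noncomputable section

variable {F : Type} [Field F] [Finite F] {V : Type u} [AddCommGroup V] [Module F V]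

instance instFiniteSub [FiniteDimensional F V] : Finite (Submodule F V) := by
  have : Finite V := Module.finite_of_finite F
  exact Finite.of_injective (fun X : Submodule F V => (X : Set V)) SetLike.coe_injective

noncomputable instance instFintypeGr [FiniteDimensional F V] (k : ℕ) : Fintype (Gr F V k) :=
  Fintype.ofFinite _

/-- the action of a linear automorphism on `k`-subspaces -/
def mapGr {k : ℕ} (e : V ≃ₗ[F] V) (X : Gr F V k) : Gr F V k :=
  ⟨X.1.map (e : V →ₗ[F] V), by rw [LinearEquiv.finrank_map_eq]; exact X.2⟩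

/-- monotone, non-constant, invariant under transvections -/
structure Good {k : ℕ} [FiniteDimensional F V] (f : Finset (Gr F V k) → Bool) : Prop where
  mono : ∀ S T, S ⊆ T → f S = true → f T = true
  empty : f ∅ = false
  univ : f Finset.univ = true
  inv : ∀ (φ : Dual F V) (v : V) (h : φ v = 0) (S : Finset (Gr F V k)),
    f (S.image (mapGr (LinearEquiv.transvection h))) = f S

lemma mapGr_inj {k : ℕ} (e : V ≃ₗ[F] V) : Function.Injective (mapGr (k := k) e) := by
  intro X Y h
  apply Subtype.ext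
  have h1 := congrArg Subtype.val h
  exact Submodule.map_injective_of_injective e.injective h1

section data

variable [FiniteDimensional F V] (ψ : Dual F V) (z : V) (hz : ψ z = 1)

/-- projection onto `ker ψ` along `z` -/
def prj : V →ₗ[F] LinearMap.ker ψ :=
  LinearMap.codRestrict (LinearMap.ker ψ) (LinearMap.id - ψ.smulRight z) (by
    intro x; simp [hz])

lemma prj_coe (x : V) : ((prj ψ z hz x : LinearMap.ker ψ) : V) = x - ψ x • z := rfl

lemma prj_z : prj ψ z hz z = 0 := by
  apply Subtype.ext; simp [prj_coe, hz]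

lemma prj_mem (x : LinearMap.ker ψ) : prj ψ z hz (x : V) = x := by
  apply Subtype.ext; rw [prj_coe]
  have : ψ (x : V) = 0 := x.2
  simp [this]

lemma prj_ker : LinearMap.ker (prj ψ z hz) = F ∙ z := by
  ext x
  rw [LinearMap.mem_ker, Submodule.mem_span_singleton]
  constructor
  · intro h
    have := congrArg Subtype.val h
    rw [prj_coe] at this
    exact ⟨ψ x, (sub_eq_zero.mp this).symm⟩
  · rintro ⟨a, rfl⟩
    rw [map_smul, prj_z, smul_zero]

include hz in
lemma finrank_ker_add : finrank F (LinearMap.ker ψ) + 1 = finrank F V := by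
  have h1 := LinearMap.finrank_range_add_finrank_ker ψ
  have h2 : LinearMap.range ψ = ⊤ := by
    rw [LinearMap.range_eq_top]
    intro c
    exact ⟨c • z, by simp [hz]⟩
  rw [h2, finrank_top, finrank_self] at h1
  omega

lemma finrank_map_prj (X : Submodule F V) :
    finrank F (X.map (prj ψ z hz)) = finrank F X ↔ z ∉ X := by
  have h1 := LinearMap.finrank_range_add_finrank_ker ((prj ψ z hz).domRestrict X)
  have h2 : LinearMap.range ((prj ψ z hz).domRestrict X) = X.map (prj ψ z hz) := by
    rw [LinearMap.domRestrict, LinearMap.range_comp, Submodule.range_subtype]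
  rw [h2] at h1
  have h3 : finrank F (X.map (prj ψ z hz)) = finrank F X ↔
      finrank F (LinearMap.ker ((prj ψ z hz).domRestrict X)) = 0 := by omega
  rw [h3, Submodule.finrank_eq_zero, Submodule.eq_bot_iff]
  have hz0 : z ≠ 0 := by rintro rfl; simp at hz
  constructor
  · intro h hzX
    have := h ⟨z, hzX⟩ (by
      rw [LinearMap.mem_ker, LinearMap.domRestrict_apply]; exact prj_z ψ z hz)
    exact hz0 (congrArg Subtype.val this)
  · intro h x hx
    rw [LinearMap.mem_ker, LinearMap.domRestrict_apply] at hx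
    have hx' : (x : V) ∈ LinearMap.ker (prj ψ z hz) := hx
    rw [prj_ker, Submodule.mem_span_singleton] at hx'
    obtain ⟨a, ha⟩ := hx'
    by_cases ha0 : a = 0
    · apply Subtype.ext; rw [← ha, ha0]; simp
    · exfalso; apply h
      have : z = a⁻¹ • (x : V) := by rw [← ha, smul_smul, inv_mul_cancel₀ ha0, one_smul]
      rw [this]; exact X.smul_mem _ x.2

include hz in
lemma finrank_comap (X : Submodule F V) :
    finrank F (X.comap (LinearMap.ker ψ).subtype) + 1 = finrank F X ↔
      ¬ X ≤ LinearMap.ker ψ := by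
  have h0 := finrank_ker_add ψ z hz
  have h1 : finrank F (X.comap (LinearMap.ker ψ).subtype) =
      finrank F (LinearMap.ker ψ ⊓ X : Submodule F V) := by
    rw [← Submodule.map_comap_subtype, Submodule.finrank_map_subtype_eq]
  rw [h1]
  constructor
  · intro h hle
    rw [inf_eq_right.mpr hle] at h
    omega
  · intro h
    have h2 := Submodule.finrank_sup_add_finrank_inf_eq (LinearMap.ker ψ) X
    have h3 : LinearMap.ker ψ ⊔ X = ⊤ := by
      by_contra hne
      have h4 : LinearMap.ker ψ < LinearMap.ker ψ ⊔ X :=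
        lt_of_le_of_ne le_sup_left (fun e => h (by rw [e]; exact le_sup_right))
      have h5 := Submodule.finrank_lt_finrank_of_lt h4
      have h6 := Submodule.finrank_lt hne
      omega
    rw [h3, finrank_top] at h2
    omega

/-- additive families of linear automorphisms act on `k`-subspaces -/
@[instance_reducible] def famAct {A : Type*} [AddCommGroup A] (e : A → (V ≃ₗ[F] V)) (h0 : ∀ x, e 0 x = x)
    (hadd : ∀ a b x, e (a + b) x = e a (e b x)) (k : ℕ) : MulAction (Multiplicative A) (Gr F V k) where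
  smul := fun a X => mapGr (e a.toAdd) X
  one_smul := fun X => by
    apply Subtype.ext
    show X.1.map ((e 0 : V ≃ₗ[F] V) : V →ₗ[F] V) = X.1
    have : ((e 0 : V ≃ₗ[F] V) : V →ₗ[F] V) = LinearMap.id := by
      ext x; exact h0 x
    rw [this, Submodule.map_id]
  mul_smul := fun a b X => by
    apply Subtype.ext
    show X.1.map ((e (a.toAdd + b.toAdd) : V ≃ₗ[F] V) : V →ₗ[F] V) =
      (X.1.map ((e b.toAdd : V ≃ₗ[F] V) : V →ₗ[F] V)).map ((e a.toAdd : V ≃ₗ[F] V) : V →ₗ[F] V)
    rw [← Submodule.map_comp]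
    congr 1
    ext x; exact hadd _ _ x

/-- `N_A`: `x ↦ x + φ(π x) z` -/
def eA (φ : Dual F (LinearMap.ker ψ)) : V ≃ₗ[F] V :=
  LinearEquiv.transvection (f := φ ∘ₗ prj ψ z hz) (v := z) (by
    rw [LinearMap.comp_apply, prj_z, map_zero])

lemma eA_apply (φ : Dual F (LinearMap.ker ψ)) (x : V) :
    eA ψ z hz φ x = x + φ (prj ψ z hz x) • z := rfl

/-- `N_B`: `x ↦ x + ψ(x) w` -/
def eB (w : LinearMap.ker ψ) : V ≃ₗ[F] V :=
  LinearEquiv.transvection (f := ψ) (v := (w : V)) w.2

lemma eB_apply (w : LinearMap.ker ψ) (x : V) : eB ψ w x = x + ψ x • (w : V) := rfl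

/-- lift of a transvection of `ker ψ` to `V` -/
def lft (φ : Dual F (LinearMap.ker ψ)) (w : LinearMap.ker ψ) (h : φ w = 0) : V ≃ₗ[F] V :=
  LinearEquiv.transvection (f := φ ∘ₗ prj ψ z hz) (v := (w : V)) (by
    rw [LinearMap.comp_apply, prj_mem, h])

lemma lft_apply (φ : Dual F (LinearMap.ker ψ)) (w : LinearMap.ker ψ) (h : φ w = 0) (x : V) :
    lft ψ z hz φ w h x = x + φ (prj ψ z hz x) • (w : V) := rfl

lemma lft_z (φ : Dual F (LinearMap.ker ψ)) (w : LinearMap.ker ψ) (h : φ w = 0) :
    lft ψ z hz φ w h z = z := by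
  rw [lft_apply, prj_z, map_zero, zero_smul, add_zero]

lemma prj_lft (φ : Dual F (LinearMap.ker ψ)) (w : LinearMap.ker ψ) (h : φ w = 0) (x : V) :
    prj ψ z hz (lft ψ z hz φ w h x) = LinearEquiv.transvection h (prj ψ z hz x) := by
  rw [lft_apply, map_add, map_smul, prj_mem]; rfl

lemma lft_mem (φ : Dual F (LinearMap.ker ψ)) (w : LinearMap.ker ψ) (h : φ w = 0)
    (x : LinearMap.ker ψ) :
    lft ψ z hz φ w h (x : V) = ((LinearEquiv.transvection h x : LinearMap.ker ψ) : V) := by
  rw [lft_apply, prj_mem]; rfl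

/-- fibres in case A -/
def fibA (k : ℕ) (Y : Gr F (LinearMap.ker ψ) k) : Finset (Gr F V k) :=
  Finset.univ.filter (fun X => X.1.map (prj ψ z hz) = Y.1)

/-- subspaces through `z` -/
def star (z : V) (k : ℕ) : Finset (Gr F V k) :=
  Finset.univ.filter (fun X => z ∈ X.1)

/-- fibres in case B -/
def fibB (k : ℕ) (Y : Gr F (LinearMap.ker ψ) k) : Finset (Gr F V (k + 1)) :=
  Finset.univ.filter (fun X => X.1.comap (LinearMap.ker ψ).subtype = Y.1)

lemma fibA_notMem {k : ℕ} {Y : Gr F (LinearMap.ker ψ) k} {X : Gr F V k}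
    (h : X ∈ fibA ψ z hz k Y) : z ∉ X.1 := by
  rw [fibA, Finset.mem_filter] at h
  rw [← finrank_map_prj ψ z hz, h.2, Y.2, X.2]

lemma exists_fibA {k : ℕ} (X : Gr F V k) (h : z ∉ X.1) :
    ∃ Y : Gr F (LinearMap.ker ψ) k, X ∈ fibA ψ z hz k Y :=
  ⟨⟨X.1.map (prj ψ z hz), by rw [(finrank_map_prj ψ z hz X.1).mpr h, X.2]⟩, by
    simp [fibA]⟩

include hz in
lemma fibB_not_le {k : ℕ} {Y : Gr F (LinearMap.ker ψ) k} {X : Gr F V (k + 1)}
    (h : X ∈ fibB ψ k Y) : ¬ X.1 ≤ LinearMap.ker ψ := by
  rw [fibB, Finset.mem_filter] at h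
  rw [← finrank_comap ψ z hz, h.2, Y.2, X.2]

include hz in
lemma exists_fibB {k : ℕ} (X : Gr F V (k + 1)) (h : ¬ X.1 ≤ LinearMap.ker ψ) :
    ∃ Y : Gr F (LinearMap.ker ψ) k, X ∈ fibB ψ k Y :=
  ⟨⟨X.1.comap (LinearMap.ker ψ).subtype, by
    have := (finrank_comap ψ z hz X.1).mpr h
    rw [X.2] at this; omega⟩, by
    simp [fibB]⟩

lemma fibA_disj {k : ℕ} {Y Y' : Gr F (LinearMap.ker ψ) k} (h : Y ≠ Y') :
    Disjoint (fibA ψ z hz k Y) (fibA ψ z hz k Y') := by
  rw [Finset.disjoint_left]
  intro X h1 h2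
  rw [fibA, Finset.mem_filter] at h1 h2
  exact h (Subtype.ext (h1.2.symm.trans h2.2))

lemma fibB_disj {k : ℕ} {Y Y' : Gr F (LinearMap.ker ψ) k} (h : Y ≠ Y') :
    Disjoint (fibB ψ k Y) (fibB ψ k Y') := by
  rw [Finset.disjoint_left]
  intro X h1 h2
  rw [fibB, Finset.mem_filter] at h1 h2
  exact h (Subtype.ext (h1.2.symm.trans h2.2))

/-- images of fibres under lifts -/
lemma mapGr_fibA {k : ℕ} (φ : Dual F (LinearMap.ker ψ)) (w : LinearMap.ker ψ) (h : φ w = 0)
    (X : Gr F V k) (Y : Gr F (LinearMap.ker ψ) k) :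
    mapGr (lft ψ z hz φ w h) X ∈ fibA ψ z hz k (mapGr (LinearEquiv.transvection h) Y) ↔
      X ∈ fibA ψ z hz k Y := by
  rw [fibA, fibA, Finset.mem_filter, Finset.mem_filter]
  simp only [Finset.mem_univ, true_and, mapGr]
  have e1 : (prj ψ z hz) ∘ₗ (lft ψ z hz φ w h : V →ₗ[F] V) =
      (LinearEquiv.transvection h : LinearMap.ker ψ →ₗ[F] LinearMap.ker ψ) ∘ₗ prj ψ z hz := by
    apply LinearMap.ext; intro x; exact prj_lft ψ z hz φ w h x
  rw [← Submodule.map_comp, e1, Submodule.map_comp]
  exact (Submodule.map_injective_of_injective (LinearEquiv.transvection h).injective).eq_iff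

lemma mapGr_fibB {k : ℕ} (φ : Dual F (LinearMap.ker ψ)) (w : LinearMap.ker ψ) (h : φ w = 0)
    (X : Gr F V (k + 1)) (Y : Gr F (LinearMap.ker ψ) k) :
    mapGr (lft ψ z hz φ w h) X ∈ fibB ψ k (mapGr (LinearEquiv.transvection h) Y) ↔
      X ∈ fibB ψ k Y := by
  rw [fibB, fibB, Finset.mem_filter, Finset.mem_filter]
  simp only [Finset.mem_univ, true_and, mapGr]
  have e1 : (X.1.map (lft ψ z hz φ w h : V →ₗ[F] V)).comap (LinearMap.ker ψ).subtype =
      (X.1.comap (LinearMap.ker ψ).subtype).map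
        (LinearEquiv.transvection h : LinearMap.ker ψ →ₗ[F] LinearMap.ker ψ) := by
    ext y
    simp only [Submodule.mem_comap, Submodule.mem_map, Submodule.subtype_apply]
    constructor
    · rintro ⟨x, hx, hxy⟩
      refine ⟨(LinearEquiv.transvection h).symm y, ?_, (LinearEquiv.transvection h).apply_symm_apply y⟩
      have : x = (((LinearEquiv.transvection h).symm y : LinearMap.ker ψ) : V) := by
        apply (lft ψ z hz φ w h).injective
        rw [lft_mem, LinearEquiv.apply_symm_apply]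
        exact hxy
      rw [← this]; exact hx
    · rintro ⟨x, hx, rfl⟩
      exact ⟨x, hx, lft_mem ψ z hz φ w h x⟩
  rw [e1]
  exact (Submodule.map_injective_of_injective (LinearEquiv.transvection h).injective).eq_iff

end data

end

end Pool.Agent.Helper3.QGr
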