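import Mathlib
import Pool.Agent.Helper3.QGr.Lin

/-!
# The two reductions: proofs
-/

set_option autoImplicit false
set_option linter.unusedSectionVars false

namespace Pool.Agent.Helper3.QGr

open Finset Module
open scoped Classical

universe u

noncomputable section

variable {F : Type} [Field F] [Finite F] {V : Type u} [AddCommGroup V] [Module F V]
variable [FiniteDimensional F V] (ψ : Dual F V) (z : V) (hz : ψ z = 1)

/-! ## Case A -/

lemma eA_zero (x : V) : eA ψ z hz 0 x = x := by simp [eA_apply]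

lemma prj_eA (φ : Dual F (LinearMap.ker ψ)) (x : V) :
    prj ψ z hz (eA ψ z hz φ x) = prj ψ z hz x := by
  simp only [eA_apply, map_add, map_smul, prj_z, smul_zero, add_zero]

lemma eA_add (a b : Dual F (LinearMap.ker ψ)) (x : V) :
    eA ψ z hz (a + b) x = eA ψ z hz a (eA ψ z hz b x) := by
  rw [eA_apply ψ z hz a, prj_eA, eA_apply, eA_apply, LinearMap.add_apply, add_smul]
  abel

lemma eA_z (φ : Dual F (LinearMap.ker ψ)) : eA ψ z hz φ z = z := by
  simp only [eA_apply, prj_z, map_zero, zero_smul, add_zero]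

lemma mapGr_eA_fibA {k : ℕ} (φ : Dual F (LinearMap.ker ψ)) (X : Gr F V k)
    (Y : Gr F (LinearMap.ker ψ) k) :
    mapGr (eA ψ z hz φ) X ∈ fibA ψ z hz k Y ↔ X ∈ fibA ψ z hz k Y := by
  rw [fibA, Finset.mem_filter, Finset.mem_filter]
  simp only [Finset.mem_univ, true_and, mapGr]
  have e1 : (prj ψ z hz) ∘ₗ (eA ψ z hz φ : V →ₗ[F] V) = prj ψ z hz := by
    apply LinearMap.ext; intro x; exact prj_eA ψ z hz φ x
  rw [← Submodule.map_comp, e1]

lemma mem_mapGr {k : ℕ} (e : V ≃ₗ[F] V) (X : Gr F V k) (x : V) (hx : e x = x) :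
    x ∈ (mapGr e X).1 ↔ x ∈ X.1 := by
  constructor
  · rintro ⟨y, hy, hyx⟩
    have : y = x := e.injective (by rw [hx]; exact hyx)
    rwa [← this]
  · intro h
    exact ⟨x, h, hx⟩

lemma exists_section {k : ℕ} (X : Gr F V k) (Y : Gr F (LinearMap.ker ψ) k)
    (h : X ∈ fibA ψ z hz k Y) :
    ∃ g : Y.1 →ₗ[F] V, (∀ y, prj ψ z hz (g y) = (y : LinearMap.ker ψ)) ∧
      LinearMap.range g = X.1 := by
  rw [fibA, Finset.mem_filter] at h
  have hXY := h.2
  let R : X.1 →ₗ[F] Y.1 := LinearMap.codRestrict Y.1 ((prj ψ z hz).domRestrict X.1) (by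
    intro x
    rw [← hXY]
    exact Submodule.mem_map_of_mem x.2)
  have hR : LinearMap.range R = ⊤ := by
    rw [LinearMap.range_eq_top]
    intro y
    have : (y : LinearMap.ker ψ) ∈ X.1.map (prj ψ z hz) := by rw [hXY]; exact y.2
    obtain ⟨x, hx, hxy⟩ := this
    exact ⟨⟨x, hx⟩, Subtype.ext hxy⟩
  obtain ⟨s, hs⟩ := R.exists_rightInverse_of_surjective hR
  have hsec : ∀ y, prj ψ z hz ((X.1.subtype ∘ₗ s) y) = (y : LinearMap.ker ψ) := by
    intro y
    have := congrArg Subtype.val (LinearMap.congr_fun hs y)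
    exact this
  refine ⟨X.1.subtype ∘ₗ s, hsec, ?_⟩
  have hinj : Function.Injective (X.1.subtype ∘ₗ s) := by
    intro y y' hyy
    apply Subtype.ext
    rw [← hsec y, ← hsec y', hyy]
  apply Submodule.eq_of_le_of_finrank_eq
  · rintro _ ⟨y, rfl⟩
    exact (s y).2
  · rw [LinearMap.finrank_range_of_inj hinj, Y.2, X.2]

lemma trA {k : ℕ} (X X' : Gr F V k) (Y : Gr F (LinearMap.ker ψ) k)
    (h : X ∈ fibA ψ z hz k Y) (h' : X' ∈ fibA ψ z hz k Y) :
    ∃ φ : Dual F (LinearMap.ker ψ), mapGr (eA ψ z hz φ) X = X' := by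
  obtain ⟨g, hg, hgX⟩ := exists_section ψ z hz X Y h
  obtain ⟨g', hg', hgX'⟩ := exists_section ψ z hz X' Y h'
  obtain ⟨φ, hφ⟩ := LinearMap.exists_extend (ψ ∘ₗ (g' - g))
  refine ⟨φ, Subtype.ext ?_⟩
  show X.1.map (eA ψ z hz φ : V →ₗ[F] V) = X'.1
  rw [← hgX, ← hgX', ← LinearMap.range_comp]
  congr 1
  apply LinearMap.ext
  intro y
  rw [LinearMap.comp_apply]
  have h1 : (eA ψ z hz φ : V →ₗ[F] V) (g y) = g y + φ (prj ψ z hz (g y)) • z := eA_apply ψ z hz φ _
  rw [h1, hg y]
  have h2 : φ (y : LinearMap.ker ψ) = ψ (g' y - g y) := LinearMap.congr_fun hφ y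
  rw [h2]
  have h3 : g' y - g y ∈ LinearMap.ker (prj ψ z hz) := by
    rw [LinearMap.mem_ker, map_sub, hg y, hg' y, sub_self]
  rw [prj_ker, Submodule.mem_span_singleton] at h3
  obtain ⟨a, ha⟩ := h3
  rw [← ha, map_smul, hz, smul_eq_mul, mul_one, ha]
  abel

lemma stabA {k : ℕ} (X : Gr F V k) (Y : Gr F (LinearMap.ker ψ) k)
    (h : X ∈ fibA ψ z hz k Y) (φ : Dual F (LinearMap.ker ψ)) :
    mapGr (eA ψ z hz φ) X = X ↔ φ ∈ Y.1.dualAnnihilator := by
  have hzX := fibA_notMem ψ z hz h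
  rw [fibA, Finset.mem_filter] at h
  rw [Submodule.mem_dualAnnihilator]
  constructor
  · intro he y hy
    rw [← h.2] at hy
    obtain ⟨x, hx, rfl⟩ := hy
    have h1 : eA ψ z hz φ x ∈ X.1 := by
      have : eA ψ z hz φ x ∈ (mapGr (eA ψ z hz φ) X).1 := ⟨x, hx, rfl⟩
      rwa [he] at this
    rw [eA_apply] at h1
    have h2 : φ (prj ψ z hz x) • z ∈ X.1 := by
      have := X.1.sub_mem h1 hx
      simpa using this
    by_contra hne
    apply hzX
    have h3 := X.1.smul_mem (φ (prj ψ z hz x))⁻¹ h2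
    rwa [smul_smul, inv_mul_cancel₀ hne, one_smul] at h3
  · intro hφ
    apply Subtype.ext
    apply Submodule.eq_of_le_of_finrank_eq
    · rintro _ ⟨x, hx, rfl⟩
      show eA ψ z hz φ x ∈ X.1
      rw [eA_apply, hφ _ (by rw [← h.2]; exact Submodule.mem_map_of_mem hx), zero_smul, add_zero]
      exact hx
    · rw [(mapGr (eA ψ z hz φ) X).2, X.2]

/-- generic fibre cardinality from orbit-stabilizer -/
lemma card_orbit_gen {N α : Type*} [Group N] [Finite N] [MulAction N α] [Finite α] (T : Finset α)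
    (x : α) (hx : ∀ y, y ∈ T ↔ ∃ n : N, n • x = y) (s : Set N) (hs : ∀ n : N, n • x = x ↔ n ∈ s) :
    T.card * Nat.card s = Nat.card N := by
  have h1 : (T : Set α) = MulAction.orbit N x := by
    ext y
    rw [Finset.mem_coe, hx y, MulAction.mem_orbit_iff]
  have h2 : (MulAction.stabilizer N x : Set N) = s := by
    ext n
    rw [SetLike.mem_coe, MulAction.mem_stabilizer_iff, hs]
  have h3 : Nat.card (MulAction.orbit N x) = T.card := by
    rw [← h1]; simp
  have h4 := Nat.card_congr (MulAction.orbitEquivQuotientStabilizer N x)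
  have h5 := Subgroup.card_eq_card_quotient_mul_card_subgroup (MulAction.stabilizer N x)
  rw [h5, ← h4, h3, ← h2]
  rfl

lemma card_fibA {k : ℕ} (Y : Gr F (LinearMap.ker ψ) k) :
    (fibA ψ z hz k Y).card = Nat.card F ^ k := by
  let _ := famAct (eA ψ z hz) (eA_zero ψ z hz) (eA_add ψ z hz) k
  have hW : Finite (LinearMap.ker ψ) := Module.finite_of_finite F
  have hD : Finite (Dual F (LinearMap.ker ψ)) := Module.finite_of_finite F
  -- a point of the fibre
  let X0 : Gr F V k := ⟨Y.1.map (LinearMap.ker ψ).subtype, by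
    rw [Submodule.finrank_map_subtype_eq, Y.2]⟩
  have hX0 : X0 ∈ fibA ψ z hz k Y := by
    rw [fibA, Finset.mem_filter]
    refine ⟨Finset.mem_univ _, ?_⟩
    show (Y.1.map (LinearMap.ker ψ).subtype).map (prj ψ z hz) = Y.1
    rw [← Submodule.map_comp]
    have : (prj ψ z hz) ∘ₗ (LinearMap.ker ψ).subtype = LinearMap.id := by
      apply LinearMap.ext; intro x; exact prj_mem ψ z hz x
    rw [this, Submodule.map_id]
  have h1 := card_orbit_gen (N := Multiplicative (Dual F (LinearMap.ker ψ))) (fibA ψ z hz k Y) X0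
    (by
      intro X
      constructor
      · intro hX
        obtain ⟨φ, hφ⟩ := trA ψ z hz X0 X Y hX0 hX
        exact ⟨Multiplicative.ofAdd φ, hφ⟩
      · rintro ⟨n, rfl⟩
        exact (mapGr_eA_fibA ψ z hz n.toAdd X0 Y).mpr hX0)
    {n | n.toAdd ∈ Y.1.dualAnnihilator}
    (by
      intro n
      exact stabA ψ z hz X0 Y hX0 n.toAdd)
  have h2 : Nat.card ({n | n.toAdd ∈ Y.1.dualAnnihilator} :
      Set (Multiplicative (Dual F (LinearMap.ker ψ)))) = Nat.card Y.1.dualAnnihilator :=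
    Nat.card_congr (Equiv.subtypeEquiv Multiplicative.toAdd (fun n => Iff.rfl))
  have h3 : Nat.card (Multiplicative (Dual F (LinearMap.ker ψ))) =
      Nat.card (Dual F (LinearMap.ker ψ)) := Nat.card_congr Multiplicative.toAdd
  rw [h2, h3, Module.natCard_eq_pow_finrank (K := F) (V := Y.1.dualAnnihilator),
    Module.natCard_eq_pow_finrank (K := F) (V := Dual F (LinearMap.ker ψ)),
    Subspace.dual_finrank_eq] at h1
  have h4 := Subspace.finrank_add_finrank_dualAnnihilator_eq Y.1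
  rw [Y.2] at h4
  rw [← h4, pow_add] at h1
  have hq : 0 < Nat.card F := Nat.card_pos
  exact Nat.eq_of_mul_eq_mul_right (pow_pos hq _) h1

/-! ## Case B -/

lemma eB_zero (x : V) : eB ψ 0 x = x := by simp [eB_apply]

lemma psi_eB (w : LinearMap.ker ψ) (x : V) : ψ (eB ψ w x) = ψ x := by
  have : ψ (w : V) = 0 := w.2
  rw [eB_apply, map_add, map_smul, this, smul_zero, add_zero]

lemma eB_add (a b : LinearMap.ker ψ) (x : V) : eB ψ (a + b) x = eB ψ a (eB ψ b x) := by
  rw [eB_apply ψ a, psi_eB, eB_apply, eB_apply, Submodule.coe_add, smul_add]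
  abel

lemma eB_ker (w y : LinearMap.ker ψ) : eB ψ w (y : V) = y := by
  have : ψ (y : V) = 0 := y.2
  rw [eB_apply, this, zero_smul, add_zero]

lemma mapGr_eB_fibB {k : ℕ} (w : LinearMap.ker ψ) (X : Gr F V (k + 1))
    (Y : Gr F (LinearMap.ker ψ) k) :
    mapGr (eB ψ w) X ∈ fibB ψ k Y ↔ X ∈ fibB ψ k Y := by
  rw [fibB, Finset.mem_filter, Finset.mem_filter]
  simp only [Finset.mem_univ, true_and]
  have e1 : (mapGr (eB ψ w) X).1.comap (LinearMap.ker ψ).subtype =
      X.1.comap (LinearMap.ker ψ).subtype := by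
    ext y
    rw [Submodule.mem_comap, Submodule.mem_comap]
    exact mem_mapGr (eB ψ w) X _ (eB_ker ψ w y)
  rw [e1]

include hz in
lemma exists_unit {k : ℕ} (X : Gr F V (k + 1)) (Y : Gr F (LinearMap.ker ψ) k)
    (h : X ∈ fibB ψ k Y) : ∃ v ∈ X.1, ψ v = 1 := by
  have h1 := fibB_not_le ψ z hz h
  obtain ⟨v, hv, hv'⟩ := SetLike.not_le_iff_exists.mp h1
  have hv0 : ψ v ≠ 0 := fun e => hv' (LinearMap.mem_ker.mpr e)
  refine ⟨(ψ v)⁻¹ • v, X.1.smul_mem _ hv, ?_⟩
  rw [map_smul, smul_eq_mul, inv_mul_cancel₀ hv0]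

include hz in
lemma trB {k : ℕ} (X X' : Gr F V (k + 1)) (Y : Gr F (LinearMap.ker ψ) k)
    (h : X ∈ fibB ψ k Y) (h' : X' ∈ fibB ψ k Y) :
    ∃ w : LinearMap.ker ψ, mapGr (eB ψ w) X = X' := by
  obtain ⟨v, hv, hv1⟩ := exists_unit ψ z hz X Y h
  obtain ⟨v', hv', hv1'⟩ := exists_unit ψ z hz X' Y h'
  have hw : ψ (v' - v) = 0 := by rw [map_sub, hv1, hv1', sub_self]
  refine ⟨⟨v' - v, hw⟩, Subtype.ext ?_⟩
  apply Submodule.eq_of_le_of_finrank_eq
  · rintro _ ⟨x, hx, rfl⟩
    show eB ψ ⟨v' - v, hw⟩ x ∈ X'.1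
    rw [eB_apply]
    have h1 : x + ψ x • (v' - v) = (x - ψ x • v) + ψ x • v' := by
      rw [smul_sub]; abel
    show x + ψ x • (v' - v) ∈ X'.1
    rw [h1]
    apply X'.1.add_mem _ (X'.1.smul_mem _ hv')
    have h2 : ψ (x - ψ x • v) = 0 := by
      rw [map_sub, map_smul, hv1, smul_eq_mul, mul_one, sub_self]
    have h3 : (⟨x - ψ x • v, h2⟩ : LinearMap.ker ψ) ∈ X.1.comap (LinearMap.ker ψ).subtype :=
      X.1.sub_mem hx (X.1.smul_mem _ hv)
    rw [fibB, Finset.mem_filter] at h h'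
    rw [h.2, ← h'.2] at h3
    exact h3
  · rw [(mapGr _ X).2, X'.2]

include hz in
lemma stabB {k : ℕ} (X : Gr F V (k + 1)) (Y : Gr F (LinearMap.ker ψ) k)
    (h : X ∈ fibB ψ k Y) (w : LinearMap.ker ψ) :
    mapGr (eB ψ w) X = X ↔ w ∈ Y.1 := by
  obtain ⟨v, hv, hv1⟩ := exists_unit ψ z hz X Y h
  rw [fibB, Finset.mem_filter] at h
  have hY : w ∈ Y.1 ↔ (w : V) ∈ X.1 := by
    rw [← h.2]; rfl
  rw [hY]
  constructor
  · intro he
    have h1 : eB ψ w v ∈ X.1 := by
      have : eB ψ w v ∈ (mapGr (eB ψ w) X).1 := ⟨v, hv, rfl⟩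
      rwa [he] at this
    rw [eB_apply, hv1, one_smul] at h1
    have := X.1.sub_mem h1 hv
    simpa using this
  · intro hw
    apply Subtype.ext
    apply Submodule.eq_of_le_of_finrank_eq
    · rintro _ ⟨x, hx, rfl⟩
      show eB ψ w x ∈ X.1
      rw [eB_apply]
      exact X.1.add_mem hx (X.1.smul_mem _ hw)
    · rw [(mapGr (eB ψ w) X).2, X.2]

include hz in
lemma nonempty_fibB {k : ℕ} (Y : Gr F (LinearMap.ker ψ) k) : ∃ X, X ∈ fibB ψ k Y := by
  have hz0 : z ≠ 0 := by rintro rfl; simp at hz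
  have hdisj : Disjoint (Y.1.map (LinearMap.ker ψ).subtype) (F ∙ z) := by
    rw [Submodule.disjoint_def]
    rintro x ⟨y, _, rfl⟩ hx
    rw [Submodule.mem_span_singleton] at hx
    obtain ⟨a, ha⟩ := hx
    have h1 : ψ (a • z) = 0 := by rw [ha]; exact y.2
    rw [map_smul, hz, smul_eq_mul, mul_one] at h1
    rw [← ha, h1, zero_smul]
  refine ⟨⟨Y.1.map (LinearMap.ker ψ).subtype ⊔ (F ∙ z), ?_⟩, ?_⟩
  · have h1 := Submodule.finrank_sup_add_finrank_inf_eq (Y.1.map (LinearMap.ker ψ).subtype) (F ∙ z)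
    rw [hdisj.eq_bot, finrank_bot, add_zero, finrank_span_singleton hz0,
      Submodule.finrank_map_subtype_eq, Y.2] at h1
    exact h1
  · rw [fibB, Finset.mem_filter]
    refine ⟨Finset.mem_univ _, ?_⟩
    ext y
    rw [Submodule.mem_comap, Submodule.mem_sup]
    constructor
    · rintro ⟨x, ⟨y', hy', rfl⟩, t, ht, hsum⟩
      rw [Submodule.mem_span_singleton] at ht
      obtain ⟨a, rfl⟩ := ht
      have h1 : ψ (y : V) = 0 := y.2
      have h2 : ψ (y' : V) = 0 := y'.2
      have h3 := congrArg ψ hsum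
      rw [map_add, map_smul, hz, Submodule.subtype_apply, Submodule.subtype_apply, h1, h2, zero_add,
        smul_eq_mul, mul_one] at h3
      rw [h3, zero_smul, add_zero] at hsum
      have : y' = y := Subtype.ext hsum
      rwa [← this]
    · intro hy
      exact ⟨y, ⟨y, hy, rfl⟩, 0, Submodule.zero_mem _, add_zero _⟩

include hz in
lemma card_fibB {k : ℕ} (Y : Gr F (LinearMap.ker ψ) k) :
    (fibB ψ k Y).card * Nat.card F ^ k = Nat.card F ^ (finrank F (LinearMap.ker ψ)) := by
  let _ := famAct (eB ψ) (eB_zero ψ) (eB_add ψ) (k + 1)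
  have hW : Finite (LinearMap.ker ψ) := Module.finite_of_finite F
  obtain ⟨X0, hX0⟩ := nonempty_fibB ψ z hz Y
  have h1 := card_orbit_gen (N := Multiplicative (LinearMap.ker ψ)) (fibB ψ k Y) X0
    (by
      intro X
      constructor
      · intro hX
        obtain ⟨w, hw⟩ := trB ψ z hz X0 X Y hX0 hX
        exact ⟨Multiplicative.ofAdd w, hw⟩
      · rintro ⟨n, rfl⟩
        exact (mapGr_eB_fibB ψ n.toAdd X0 Y).mpr hX0)
    {n | n.toAdd ∈ Y.1}
    (by
      intro n
      exact stabB ψ z hz X0 Y hX0 n.toAdd)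
  have h2 : Nat.card ({n | n.toAdd ∈ Y.1} :
      Set (Multiplicative (LinearMap.ker ψ))) = Nat.card Y.1 :=
    Nat.card_congr (Equiv.subtypeEquiv Multiplicative.toAdd (fun n => Iff.rfl))
  have h3 : Nat.card (Multiplicative (LinearMap.ker ψ)) = Nat.card (LinearMap.ker ψ) :=
    Nat.card_congr Multiplicative.toAdd
  rw [h2, h3, Module.natCard_eq_pow_finrank (K := F) (V := Y.1),
    Module.natCard_eq_pow_finrank (K := F) (V := LinearMap.ker ψ), Y.2] at h1
  exact h1

/-! ## Reductions -/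

/-- what we want: an interval of prescribed size with non-zero alternating sum mod `p` -/
def Found (p : ℕ) {α : Type*} [DecidableEq α] (f : Finset α → Bool) (h : ℕ) : Prop :=
  ∃ S O : Finset α, Disjoint S O ∧ O.card = h ∧ alt (ZMod p) f S O ≠ 0

lemma isPGroup_mult (F : Type) [Field F] (p : ℕ) [Fact p.Prime] [CharP F p] (A : Type*) [AddCommGroup A] [Module F A]
    [Finite A] : IsPGroup p (Multiplicative A) := by
  intro g
  refine ⟨1, ?_⟩
  rw [pow_one]
  have h1 : (p : F) = 0 := CharP.cast_eq_zero F p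
  have h2 : p • g.toAdd = 0 := by
    rw [← Nat.cast_smul_eq_nsmul F, h1, zero_smul]
  exact h2

lemma neg_one_pow_q (p : ℕ) [Fact p.Prime] [CharP F p] (e : ℕ) :
    (-1 : ZMod p) ^ (Nat.card F ^ e) = -1 := by
  have := Fintype.ofFinite F
  rw [Nat.card_eq_fintype_card]
  obtain ⟨n, hp, hn⟩ := FiniteField.card F p
  rcases hp.eq_two_or_odd' with h2 | hodd
  · subst h2
    have : (-1 : ZMod 2) = 1 := CharTwo.neg_eq (1 : ZMod 2)
    rw [this, one_pow]
  · rw [hn]
    exact Odd.neg_one_pow ((hodd.pow).pow)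

lemma image_eq_of_stab {α : Type*} [DecidableEq α] (S : Finset α) (g : α → α)
    (hg : Function.Injective g) (h : ∀ x ∈ S, g x ∈ S) : S.image g = S := by
  apply Finset.eq_of_subset_of_card_le
  · intro x hx
    obtain ⟨y, hy, rfl⟩ := Finset.mem_image.mp hx
    exact h y hy
  · rw [Finset.card_image_of_injective _ hg]

/-- the general reduction step -/
lemma reduce {k k' : ℕ} (p : ℕ) [Fact p.Prime] (f : Finset (Gr F V k) → Bool) (hf : Good f)
    {A : Type*} [AddCommGroup A] [Module F A] [Finite A] [CharP F p]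
    (e : A → (V ≃ₗ[F] V)) (h0 : ∀ x, e 0 x = x)
    (hadd : ∀ a b x, e (a + b) x = e a (e b x))
    (hetr : ∀ a, ∃ (φ : Dual F V) (v : V) (h : φ v = 0), e a = LinearEquiv.transvection h)
    (fib : Gr F (LinearMap.ker ψ) k' → Finset (Gr F V k)) (c : ℕ)
    (hcard : ∀ Y, (fib Y).card = c) (hc0 : 0 < c) (hc : (-1 : ZMod p) ^ c = -1)
    (hstab : ∀ Y X a, X ∈ fib Y → mapGr (e a) X ∈ fib Y)
    (htr : ∀ Y, ∀ X ∈ fib Y, ∀ X' ∈ fib Y, ∃ a, mapGr (e a) X = X')
    (hdisj : ∀ Y Y', Y ≠ Y' → Disjoint (fib Y) (fib Y'))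
    (hlft : ∀ (φ : Dual F (LinearMap.ker ψ)) (w : LinearMap.ker ψ) (h : φ w = 0)
      (X : Gr F V k) (Y : Gr F (LinearMap.ker ψ) k'),
      mapGr (lft ψ z hz φ w h) X ∈ fib (mapGr (LinearEquiv.transvection h) Y) ↔ X ∈ fib Y)
    (S0 : Finset (Gr F V k)) (hS0 : ∀ Y, Disjoint S0 (fib Y))
    (hS0e : ∀ a, ∀ X ∈ S0, mapGr (e a) X ∈ S0)
    (hS0l : ∀ (φ : Dual F (LinearMap.ker ψ)) (w : LinearMap.ker ψ) (h : φ w = 0),
      ∀ X ∈ S0, mapGr (lft ψ z hz φ w h) X ∈ S0)
    (hf0 : f S0 = false) (hf1 : f (S0 ∪ Finset.univ.biUnion fib) = true) (h' : ℕ)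
    (IH : ∀ f' : Finset (Gr F (LinearMap.ker ψ) k') → Bool, Good f' → Found p f' h') :
    Found p f (c * h') := by
  -- the reduced function
  let f' : Finset (Gr F (LinearMap.ker ψ) k') → Bool := fun T => f (S0 ∪ T.biUnion fib)
  have hgood : Good f' := by
    refine ⟨?_, ?_, hf1, ?_⟩
    · intro S T hST hS
      exact hf.mono _ _ (Finset.union_subset_union_right
        (Finset.biUnion_subset_biUnion_of_subset_left _ hST)) hS
    · simp only [f', Finset.biUnion_empty, Finset.union_empty]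
      exact hf0
    · intro φ w h T
      simp only [f']
      have h1 : S0 ∪ (T.image (mapGr (LinearEquiv.transvection h))).biUnion fib =
          (S0 ∪ T.biUnion fib).image (mapGr (lft ψ z hz φ w h)) := by
        rw [Finset.image_union]
        congr 1
        · exact (image_eq_of_stab S0 _ (mapGr_inj _) (hS0l φ w h)).symm
        · ext X
          simp only [Finset.mem_biUnion, Finset.mem_image]
          constructor
          · rintro ⟨_, ⟨Y, hY, rfl⟩, hX⟩
            refine ⟨mapGr (lft ψ z hz φ w h).symm X, ⟨Y, hY, ?_⟩, ?_⟩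
            · rw [← hlft φ w h]
              convert hX using 1
              apply Subtype.ext
              show (X.1.map _).map _ = X.1
              rw [← Submodule.map_comp]
              have : (lft ψ z hz φ w h : V →ₗ[F] V) ∘ₗ
                  ((lft ψ z hz φ w h).symm : V →ₗ[F] V) = LinearMap.id := by
                ext x; simp
              rw [this, Submodule.map_id]
            · apply Subtype.ext
              show (X.1.map _).map _ = X.1
              rw [← Submodule.map_comp]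
              have : (lft ψ z hz φ w h : V →ₗ[F] V) ∘ₗ
                  ((lft ψ z hz φ w h).symm : V →ₗ[F] V) = LinearMap.id := by
                ext x; simp
              rw [this, Submodule.map_id]
          · rintro ⟨X', ⟨Y, hY, hX'⟩, rfl⟩
            exact ⟨_, ⟨Y, hY, rfl⟩, (hlft φ w h X' Y).mpr hX'⟩
      rw [h1]
      exact hf.inv _ _ _ _
  obtain ⟨S', O', hd, hO', hne⟩ := IH f' hgood
  refine ⟨S0 ∪ S'.biUnion fib, O'.biUnion fib, ?_, ?_, ?_⟩
  · rw [Finset.disjoint_union_left]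
    constructor
    · rw [Finset.disjoint_biUnion_right]
      intro Y _
      exact hS0 Y
    · rw [Finset.disjoint_biUnion_left]
      intro Y hY
      rw [Finset.disjoint_biUnion_right]
      intro Y' hY'
      apply hdisj
      rintro rfl
      exact Finset.disjoint_left.mp hd hY hY'
  · rw [Finset.card_biUnion (fun b _ b' _ hne => hdisj b b' hne)]
    rw [Finset.sum_congr rfl (fun b _ => hcard b)]
    simp [hO', mul_comm]
  · let _ := famAct e h0 hadd k
    have key := alt_fib (N := Multiplicative A) p (isPGroup_mult F p A) fib O' c hc hc0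
      (fun b _ => hcard b) (fun b _ x hx n => hstab b x n.toAdd hx)
      (fun b _ x hx y hy => by
        obtain ⟨a, ha⟩ := htr b x hx y hy
        exact ⟨Multiplicative.ofAdd a, ha⟩)
      (fun b _ b' _ hne => hdisj b b' hne) f
      (fun n T => by
        obtain ⟨φ, v, h, he⟩ := hetr n.toAdd
        have := hf.inv φ v h T
        rw [← he] at this
        exact this)
      (S0 ∪ S'.biUnion fib)
      (fun n => by
        apply image_eq_of_stab _ _ (MulAction.injective n)
        intro X hX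
        rw [Finset.mem_union] at hX ⊢
        rcases hX with hX | hX
        · exact Or.inl (hS0e n.toAdd X hX)
        · right
          obtain ⟨Y, hY, hXY⟩ := Finset.mem_biUnion.mp hX
          exact Finset.mem_biUnion.mpr ⟨Y, hY, hstab Y X n.toAdd hXY⟩)
    rw [key]
    have h2 : alt (ZMod p) (fun T' => f (S0 ∪ S'.biUnion fib ∪ T'.biUnion fib)) ∅ O' =
        alt (ZMod p) f' S' O' := by
      unfold alt
      apply Finset.sum_congr rfl
      intro T _
      simp only [f', Finset.empty_union]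
      rw [Finset.union_biUnion, Finset.union_assoc]
    rw [h2]
    exact hne

end

end Pool.Agent.Helper3.QGr
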