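import Mathlib
import Pool.Agent.Helper3.QGr.Lin

/-!
# The number of `k`-subspaces
-/

set_option autoImplicit false
set_option linter.unusedSectionVars false

namespace Pool.Agent.Helper3.QGr

open Finset Module
open scoped Classical

universe u

lemma prodP (x : ℝ) (hx0 : 0 ≤ x) (hx1 : x ≤ 1) (k : ℕ) :
    1 - x - x ^ 2 + x ^ (k + 2) ≤ ∏ j ∈ Finset.range (k + 1), (1 - x ^ (j + 1)) := by
  induction k with
  | zero => simp
  | succ k ih =>
    rw [Finset.prod_range_succ]
    have h1 : (0 : ℝ) ≤ 1 - x ^ (k + 1 + 1) := by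
      have := pow_le_one₀ hx0 hx1 (n := k + 1 + 1)
      linarith
    have h2 := mul_le_mul_of_nonneg_right ih h1
    refine le_trans ?_ h2
    have h3 : x ^ (2 * k + 4) ≤ x ^ (k + 4) := pow_le_pow_of_le_one hx0 hx1 (by omega)
    have e : (1 - x - x ^ 2 + x ^ (k + 2)) * (1 - x ^ (k + 1 + 1)) =
        1 - x - x ^ 2 + x ^ (k + 1 + 2) + (x ^ (k + 4) - x ^ (2 * k + 4)) := by ring
    rw [e]; linarith

lemma prodP' (x : ℝ) (hx0 : 0 ≤ x) (hx1 : x ≤ 1) (k : ℕ) :
    1 - x - x ^ 2 ≤ ∏ j ∈ Finset.range k, (1 - x ^ (j + 1)) := by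
  rcases k with _ | k
  · simp; nlinarith [sq_nonneg x]
  · have := prodP x hx0 hx1 k
    have h2 : 0 ≤ x ^ (k + 2) := pow_nonneg hx0 _
    linarith

lemma card_mul_le {F : Type} [Field F] [Fintype F] {V : Type u} [AddCommGroup V] [Module F V]
    [FiniteDimensional F V] (k : ℕ) :
    Nat.card (Gr F V k) * ∏ i : Fin k, (Fintype.card F ^ k - Fintype.card F ^ (i : ℕ)) ≤
      Fintype.card F ^ (k * finrank F V) := by
  have hV : Finite V := Module.finite_of_finite F
  let T := Σ X : Gr F V k, {s : Fin k → X.1 // LinearIndependent F s}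
  let j : T → (Fin k → V) := fun t i => ((t.2.1 i : t.1.1) : V)
  have hspan : ∀ t : T, Submodule.span F (Set.range (j t)) = t.1.1 := by
    intro t
    have h1 : Submodule.span F (Set.range t.2.1) = ⊤ := by
      apply t.2.2.span_eq_top_of_card_eq_finrank'
      rw [Fintype.card_fin, t.1.2]
    have h2 : Set.range (j t) = t.1.1.subtype '' Set.range t.2.1 := by
      rw [← Set.range_comp]; rfl
    rw [h2, Submodule.span_image, h1, Submodule.map_top, Submodule.range_subtype]
  have hj : Function.Injective j := by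
    intro t t' h
    have h1 : t.1 = t'.1 := Subtype.ext (by rw [← hspan t, ← hspan t', h])
    obtain ⟨X, s⟩ := t
    obtain ⟨X', s'⟩ := t'
    simp only at h1
    subst h1
    congr 1
    apply Subtype.ext
    funext i
    apply Subtype.ext
    exact congrFun h i
  have hcard := Nat.card_le_card_of_injective j hj
  have h1 : Nat.card T = Nat.card (Gr F V k) *
      ∏ i : Fin k, (Fintype.card F ^ k - Fintype.card F ^ (i : ℕ)) := by
    have : Fintype (Gr F V k) := Fintype.ofFinite _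
    rw [Nat.card_sigma]
    rw [Finset.sum_congr rfl (g := fun _ => ∏ i : Fin k,
      (Fintype.card F ^ k - Fintype.card F ^ (i : ℕ)))]
    · rw [Finset.sum_const, Finset.card_univ, Nat.card_eq_fintype_card, smul_eq_mul]
    · intro X _
      have h := card_linearIndependent (K := F) (V := X.1) (k := k) (by rw [X.2])
      rw [X.2] at h
      exact h
  rw [h1] at hcard
  refine hcard.trans ?_
  have h2 : Nat.card (Fin k → V) = Fintype.card F ^ (k * finrank F V) := by
    rw [Nat.card_fun, Module.natCard_eq_pow_finrank (K := F) (V := V), Nat.card_eq_fintype_card,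
      Nat.card_eq_fintype_card, Fintype.card_fin, ← pow_mul, mul_comm]
  rw [h2]

theorem card_bound {F : Type} [Field F] [Fintype F] {V : Type u} [AddCommGroup V] [Module F V]
    [FiniteDimensional F V] (k m : ℕ) (hk : k ≤ m) (hm : finrank F V = m) :
    (1 - 1 / (Fintype.card F : ℝ) - 1 / (Fintype.card F : ℝ) ^ 2) * (Nat.card (Gr F V k) : ℝ) ≤
      (Fintype.card F : ℝ) ^ (k * (m - k)) := by
  set q := Fintype.card F with hq
  have hq2 : 1 < q := Fintype.one_lt_card
  have hq0 : (0 : ℝ) < q := by exact_mod_cast (by omega : 0 < q)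
  have h1 := card_mul_le (F := F) (V := V) k
  rw [← hq, hm] at h1
  have h2 : (Nat.card (Gr F V k) : ℝ) * ∏ i : Fin k, ((q : ℝ) ^ k - (q : ℝ) ^ (i : ℕ)) ≤
      (q : ℝ) ^ (k * m) := by
    have h3 : ((Nat.card (Gr F V k) * ∏ i : Fin k, (q ^ k - q ^ (i : ℕ)) : ℕ) : ℝ) ≤
        ((q ^ (k * m) : ℕ) : ℝ) := by exact_mod_cast h1
    push_cast at h3
    convert h3 using 2
    apply Finset.prod_congr rfl
    intro i _
    rw [Nat.cast_sub (Nat.pow_le_pow_right (by omega) i.2.le)]
    push_cast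
    rfl
  set x : ℝ := 1 / (q : ℝ) with hx
  have hx0 : 0 ≤ x := by positivity
  have hx1 : x ≤ 1 := by
    rw [hx, div_le_one hq0]; exact_mod_cast hq2.le
  have h4 : ∏ i : Fin k, ((q : ℝ) ^ k - (q : ℝ) ^ (i : ℕ)) =
      (q : ℝ) ^ (k * k) * ∏ j ∈ Finset.range k, (1 - x ^ (j + 1)) := by
    have hkk : (q : ℝ) ^ (k * k) = ∏ _j ∈ Finset.range k, (q : ℝ) ^ k := by
      rw [Finset.prod_const, Finset.card_range, ← pow_mul]
    rw [Fin.prod_univ_eq_prod_range (fun i => (q : ℝ) ^ k - (q : ℝ) ^ i) k,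
      ← Finset.prod_range_reflect, hkk, ← Finset.prod_mul_distrib]
    apply Finset.prod_congr rfl
    intro j hj
    rw [Finset.mem_range] at hj
    have e : (q : ℝ) ^ k = (q : ℝ) ^ (k - 1 - j) * (q : ℝ) ^ (j + 1) := by
      rw [← pow_add]; congr 1; omega
    rw [hx, mul_sub, mul_one, one_div, inv_pow]
    congr 1
    rw [e, mul_assoc, mul_inv_cancel₀ (pow_ne_zero _ hq0.ne'), mul_one]
  rw [h4] at h2
  have h5 : (q : ℝ) ^ (k * m) = (q : ℝ) ^ (k * k) * (q : ℝ) ^ (k * (m - k)) := by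
    rw [← pow_add, ← Nat.mul_add]; congr 2; omega
  rw [h5] at h2
  have h6 : (Nat.card (Gr F V k) : ℝ) * ∏ j ∈ Finset.range k, (1 - x ^ (j + 1)) ≤
      (q : ℝ) ^ (k * (m - k)) := by
    have hpos : (0 : ℝ) < (q : ℝ) ^ (k * k) := pow_pos hq0 _
    have : (q : ℝ) ^ (k * k) * ((Nat.card (Gr F V k) : ℝ) *
        ∏ j ∈ Finset.range k, (1 - x ^ (j + 1))) ≤
        (q : ℝ) ^ (k * k) * (q : ℝ) ^ (k * (m - k)) := by
      calc _ = (Nat.card (Gr F V k) : ℝ) * ((q : ℝ) ^ (k * k) *
          ∏ j ∈ Finset.range k, (1 - x ^ (j + 1))) := by ring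
        _ ≤ _ := h2
    exact le_of_mul_le_mul_left this hpos
  refine le_trans ?_ h6
  rw [mul_comm]
  apply mul_le_mul_of_nonneg_left _ (Nat.cast_nonneg _)
  have h7 := prodP' x hx0 hx1 k
  have h8 : x ^ 2 = 1 / (q : ℝ) ^ 2 := by rw [hx, div_pow, one_pow]
  rw [← h8]
  exact h7

end Pool.Agent.Helper3.QGr
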