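import Mathlib
import Pool.Agent.Helper3.QGr.Cases

/-!
# The induction
-/

set_option autoImplicit false
set_option linter.unusedSectionVars false

namespace Pool.Agent.Helper3.QGr

open Finset Module
open scoped Classical

universe u

noncomputable section

lemma found_unique {α : Type*} [Fintype α] [DecidableEq α] (p : ℕ) [Fact p.Prime] (x : α)
    (hx : ∀ y, y = x) (f : Finset α → Bool) (h0 : f ∅ = false) (h1 : f Finset.univ = true) :
    Found p f 1 := by
  refine ⟨∅, {x}, by simp, by simp, ?_⟩
  have hu : (Finset.univ : Finset α) = {x} := by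
    ext y; simp [hx y]
  rw [hu] at h1
  unfold alt
  have : ({x} : Finset α).powerset = {∅, {x}} := by
    ext T; simp [Finset.subset_singleton_iff]
  rw [this, Finset.sum_pair (Finset.singleton_ne_empty x).symm]
  simp [h0, h1, val]

theorem main {F : Type} [Field F] [Finite F] (p : ℕ) [Fact p.Prime] [CharP F p] :
    ∀ (m k : ℕ), k ≤ m → ∀ (V : Type u) [AddCommGroup V] [Module F V] [FiniteDimensional F V],
      finrank F V = m → ∀ f : Finset (Gr F V k) → Bool, Good f →
        Found p f (Nat.card F ^ (k * (m - k))) := by
  intro m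
  induction m with
  | zero =>
    intro k hk V _ _ _ hV f hf
    obtain rfl : k = 0 := by omega
    rw [Nat.zero_mul, pow_zero]
    exact found_unique p ⟨⊥, by simp⟩
      (fun Y => Subtype.ext (Submodule.finrank_eq_zero.mp Y.2)) f hf.empty hf.univ
  | succ m ih =>
    intro k hk V _ _ _ hV f hf
    rcases Nat.eq_zero_or_pos k with rfl | hk0
    · rw [Nat.zero_mul, pow_zero]
      exact found_unique p ⟨⊥, by simp⟩
        (fun Y => Subtype.ext (Submodule.finrank_eq_zero.mp Y.2)) f hf.empty hf.univ
    rcases Nat.eq_or_lt_of_le hk with rfl | hkm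
    · rw [Nat.sub_self, Nat.mul_zero, pow_zero]
      exact found_unique p ⟨⊤, by rw [finrank_top, hV]⟩
        (fun Y => Subtype.ext (Submodule.eq_top_of_finrank_eq (by rw [Y.2, hV]))) f hf.empty
        hf.univ
    -- choose `z` and `ψ`
    have : Nontrivial V := Module.nontrivial_of_finrank_pos (R := F) (by omega)
    obtain ⟨z, hz0⟩ := exists_ne (0 : V)
    obtain ⟨ψ, hz⟩ : ∃ ψ : Dual F V, ψ z = 1 := by
      by_contra hne
      push Not at hne
      apply hz0
      rw [← Module.forall_dual_apply_eq_zero_iff F z]
      intro φ
      by_contra hφ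
      exact hne ((φ z)⁻¹ • φ) (by
        rw [LinearMap.smul_apply, smul_eq_mul, inv_mul_cancel₀ hφ])
    have hWfin : Finite (LinearMap.ker ψ) := Module.finite_of_finite F
    have hDfin : Finite (Dual F (LinearMap.ker ψ)) := Module.finite_of_finite F
    have hW := finrank_ker_add ψ z hz
    have hq : 0 < Nat.card F := Nat.card_pos
    by_cases hst : f (star z k) = true
    · -- case B
      obtain ⟨j, rfl⟩ : ∃ j, k = j + 1 := ⟨k - 1, by omega⟩
      have hfin : finrank F (LinearMap.ker ψ) = m := by omega
      have hcard : ∀ Y : Gr F (LinearMap.ker ψ) j, (fibB ψ j Y).card = Nat.card F ^ (m - j) := by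
        intro Y
        have h1 := card_fibB ψ z hz Y
        rw [hfin] at h1
        have h2 : Nat.card F ^ m = Nat.card F ^ (m - j) * Nat.card F ^ j := by
          rw [← pow_add]; congr 1; omega
        rw [h2] at h1
        exact Nat.eq_of_mul_eq_mul_right (pow_pos hq _) h1
      have key := reduce ψ z hz p f hf (A := LinearMap.ker ψ) (eB ψ) (eB_zero ψ) (eB_add ψ)
        (fun a => ⟨ψ, a, a.2, rfl⟩) (fibB ψ j) (Nat.card F ^ (m - j)) hcard (pow_pos hq _)
        (neg_one_pow_q p _) (fun Y X a h => (mapGr_eB_fibB ψ a X Y).mpr h)
        (fun Y X hX X' hX' => trB ψ z hz X X' Y hX hX') (fun Y Y' h => fibB_disj ψ h)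
        (fun φ w h X Y => mapGr_fibB ψ z hz φ w h X Y) ∅ (fun Y => by simp)
        (fun a X h => by simp at h) (fun φ w h X hX => by simp at hX) hf.empty
        (by
          apply hf.mono (star z (j + 1)) _ _ hst
          intro X hX
          rw [star, Finset.mem_filter] at hX
          rw [Finset.empty_union, Finset.mem_biUnion]
          obtain ⟨Y, hY⟩ := exists_fibB ψ z hz X (fun hle => by
            have := hle hX.2
            rw [LinearMap.mem_ker, hz] at this
            exact one_ne_zero this)
          exact ⟨Y, Finset.mem_univ _, hY⟩)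
        (Nat.card F ^ (j * (m - j)))
        (fun f' hf' => ih j (by omega) (LinearMap.ker ψ) hfin f' hf')
      rw [← pow_add] at key
      have he : m - j + j * (m - j) = (j + 1) * (m + 1 - (j + 1)) := by
        have : m + 1 - (j + 1) = m - j := by omega
        rw [this]; ring
      rw [he] at key
      exact key
    · -- case A
      have hfin : finrank F (LinearMap.ker ψ) = m := by omega
      have key := reduce ψ z hz p f hf (A := Dual F (LinearMap.ker ψ)) (eA ψ z hz)
        (eA_zero ψ z hz) (eA_add ψ z hz)
        (fun a => ⟨a ∘ₗ prj ψ z hz, z, by rw [LinearMap.comp_apply, prj_z, map_zero], rfl⟩)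
        (fibA ψ z hz k) (Nat.card F ^ k) (card_fibA ψ z hz) (pow_pos hq _)
        (neg_one_pow_q p _) (fun Y X a h => (mapGr_eA_fibA ψ z hz a X Y).mpr h)
        (fun Y X hX X' hX' => trA ψ z hz X X' Y hX hX') (fun Y Y' h => fibA_disj ψ z hz h)
        (fun φ w h X Y => mapGr_fibA ψ z hz φ w h X Y) (star z k)
        (fun Y => by
          rw [Finset.disjoint_left]
          intro X hX hX'
          rw [star, Finset.mem_filter] at hX
          exact fibA_notMem ψ z hz hX' hX.2)
        (fun a X h => by
          rw [star, Finset.mem_filter] at h ⊢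
          exact ⟨Finset.mem_univ _, (mem_mapGr _ X z (eA_z ψ z hz a)).mpr h.2⟩)
        (fun φ w h X hX => by
          rw [star, Finset.mem_filter] at hX ⊢
          exact ⟨Finset.mem_univ _, (mem_mapGr _ X z (lft_z ψ z hz φ w h)).mpr hX.2⟩)
        (by simpa using hst)
        (by
          have : star z k ∪ Finset.univ.biUnion (fibA ψ z hz k) = Finset.univ := by
            ext X
            simp only [Finset.mem_union, Finset.mem_biUnion, Finset.mem_univ, true_and, iff_true]
            by_cases h : z ∈ X.1
            · left; rw [star, Finset.mem_filter]; exact ⟨Finset.mem_univ _, h⟩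
            · right; exact exists_fibA ψ z hz X h
          rw [this]; exact hf.univ)
        (Nat.card F ^ (k * (m - k)))
        (fun f' hf' => ih k (by omega) (LinearMap.ker ψ) hfin f' hf')
      rw [← pow_add] at key
      have he : k + k * (m - k) = k * (m + 1 - k) := by
        have : m + 1 - k = (m - k) + 1 := by omega
        rw [this]; ring
      rw [he] at key
      exact key

end

end Pool.Agent.Helper3.QGr
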