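import Mathlib
import Pool.Agent.Helper3.QGr.Main
import Pool.Agent.Helper3.QGr.Count

/-!
# From Boolean functions on `k`-subspaces to finsets
-/

set_option autoImplicit false

namespace Pool.Agent.Helper3.QGr

open Finset Module Pool.Agent.Lead.Ev
open scoped Classical

theorem depth_bound {F : Type} [Field F] [Fintype F] {V : Type} [AddCommGroup V] [Module F V]
    [FiniteDimensional F V] (m k : ℕ) (hk : k ≤ m) (hm : finrank F V = m)
    (f : (Gr F V k → Bool) → Bool) (hmono : Monotone f) (hnc : ∃ x y, f x ≠ f y)
    (hinv : ∀ g : V ≃ₗ[F] V, LinearEquiv.det g = 1 →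
      ∀ x y : Gr F V k → Bool,
        (∀ X Y : Gr F V k, Y.1 = X.1.map (g : V →ₗ[F] V) → y Y = x X) → f y = f x)
    (t : DTree (Gr F V k)) (ht : ∀ x, t.eval x = f x) :
    Fintype.card F ^ (k * (m - k)) ≤ t.depth := by
  obtain ⟨p, hp⟩ := CharP.exists F
  have hpp : Fact p.Prime := ⟨CharP.char_is_prime F p⟩
  set f' : Finset (Gr F V k) → Bool := fun T => f (ind T) with hf'
  have hbot : f ⊥ = false := by
    by_contra h
    have h1 : f ⊥ = true := by simpa using h
    obtain ⟨x, y, hxy⟩ := hnc
    apply hxy
    have hx := hmono (bot_le : ⊥ ≤ x)
    have hy := hmono (bot_le : ⊥ ≤ y)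
    rw [h1] at hx hy
    have e1 : f x = true := le_antisymm le_top hx
    have e2 : f y = true := le_antisymm le_top hy
    rw [e1, e2]
  have htop : f ⊤ = true := by
    by_contra h
    have h1 : f ⊤ = false := by simpa using h
    obtain ⟨x, y, hxy⟩ := hnc
    apply hxy
    have hx := hmono (le_top : x ≤ ⊤)
    have hy := hmono (le_top : y ≤ ⊤)
    rw [h1] at hx hy
    have e1 : f x = false := le_antisymm hx bot_le
    have e2 : f y = false := le_antisymm hy bot_le
    rw [e1, e2]
  have hgood : Good f' := by
    refine ⟨?_, ?_, ?_, ?_⟩
    · intro S T hST hS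
      have h1 : ind S ≤ ind T := by
        intro X
        simp only [ind]
        by_cases h : X ∈ S
        · have := hST h
          simp [h, this]
        · simp [h]
      have h2 := hmono h1
      have h3 : f (ind S) = true := hS
      rw [h3] at h2
      exact le_antisymm le_top h2
    · have : ind (∅ : Finset (Gr F V k)) = ⊥ := by
        funext X; simp [ind]
      simp only [f', this]; exact hbot
    · have : ind (Finset.univ : Finset (Gr F V k)) = ⊤ := by
        funext X; simp [ind]
      simp only [f', this]; exact htop
    · intro φ v h S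
      simp only [f']
      apply hinv (LinearEquiv.transvection h)
      · apply Units.ext
        rw [LinearEquiv.coe_det, LinearEquiv.transvection.coe_toLinearMap,
          LinearMap.transvection.det, h]
        simp
      · intro X Y hY
        have hYX : Y = mapGr (LinearEquiv.transvection h) X := Subtype.ext hY
        rw [hYX]
        simp only [ind]
        congr 1
        apply propext
        constructor
        · intro hm
          obtain ⟨X', hX', he⟩ := Finset.mem_image.mp hm
          rwa [← mapGr_inj _ he]
        · intro hX
          exact Finset.mem_image_of_mem _ hX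
  obtain ⟨S, O, hd, hO, hne⟩ := main p m k hk V hm f' hgood
  rw [← Nat.card_eq_fintype_card, ← hO]
  by_contra hlt
  push Not at hlt
  apply hne
  have h1 := alt_tree (ZMod p) t S O hd hlt
  have h2 : (fun F' => t.eval (ind F')) = f' := by
    funext T; exact ht _
  have h3 : alt (ZMod p) (fun F' => t.eval (ind F')) S O = alt (ZMod p) f' S O := by
    rw [h2]
  rw [← h3]
  convert h1 using 2

end Pool.Agent.Helper3.QGr
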